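import Pool.Agent.H43.Chi.Final
import Pool.Agent.H43.Chi.Upper

set_option autoImplicit false

namespace Pool.Agent.Results.MP_4e279d_co.ChromaticThree

open Pool.Agent.H43.L1

/-- **The chromatic number of `ℝ³` with the `ℓ₁`-norm is between `9` and `12`.** No colouring of
all points of `ℝ³` with `8` colours (arbitrary colour classes) gives different colours to any two
points at `ℓ₁`-distance `1`, and there is such a colouring with `12` colours. In particular
`χ(ℓ₁³) > 2³ = χ(ℓ_∞³)`. -/
theorem result : ¬ (unitGraph 3).Colorable 8 ∧ (unitGraph 3).Colorable 12 :=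
  ⟨Pool.Agent.H43.Chi.not_colorable8, Pool.Agent.H43.Chi.colorable12⟩

end Pool.Agent.Results.MP_4e279d_co.ChromaticThree
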